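import Pool.Agent.Helper50_DP.Stmts

/-!
# Squad DP, module CLT: closure of the classes under the infinitesimal linear action
-/

set_option autoImplicit false

universe u

open MvPolynomial

namespace Pool.Agent.DP.H11

/-! ### Dual numbers -/

section du

variable {R : Type*} [CommRing R]

/-- The dual number `x + ε y`. -/
def du (x y : R) : DualNumber R := (x, y)

theorem fst_du (x y : R) : (du x y).fst = x := rfl

theorem snd_du (x y : R) : (du x y).snd = y := rfl

theorem du_ext {z w : DualNumber R} (h1 : z.fst = w.fst) (h2 : z.snd = w.snd) : z = w :=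
  TrivSqZeroExt.ext h1 h2

theorem du_add (x y z w : R) : du x y + du z w = du (x + z) (y + w) := rfl

theorem du_mul (x y z w : R) : du x y * du z w = du (x * z) (x * w + y * z) := by
  refine du_ext rfl ?_
  rw [TrivSqZeroExt.snd_mul]
  simp only [fst_du, snd_du, smul_eq_mul, MulOpposite.smul_eq_mul_unop, MulOpposite.unop_op]

theorem du_zero : du (0 : R) 0 = 0 := rfl

theorem du_one : du (1 : R) 0 = 1 := rfl

theorem du_eq {z : DualNumber R} : z = du z.fst z.snd := rfl

theorem du_pow (x : R) (n : ℕ) : du x 0 ^ n = du (x ^ n) 0 := by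
  induction n with
  | zero => rw [pow_zero, pow_zero, du_one]
  | succ n ih => rw [pow_succ, ih, du_mul, pow_succ]; simp

theorem du_sum {ι : Type*} (s : Finset ι) (f g : ι → R) :
    ∑ i ∈ s, du (f i) (g i) = du (∑ i ∈ s, f i) (∑ i ∈ s, g i) := by
  classical
  induction s using Finset.induction_on with
  | empty => simp [du_zero]
  | insert a s ha ih => rw [Finset.sum_insert ha, Finset.sum_insert ha, Finset.sum_insert ha, ih,
      du_add]

theorem du_int (n : ℤ) : du (n : R) 0 = (n : DualNumber R) := rfl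

end du

/-! ### Taylor lemma -/

/-- The Taylor lemma for dual numbers. -/
theorem taylor {σ : Type*} {R : Type*} [CommRing R] (v : σ → R) (w : R)
    (Δ : Derivation ℤ (MvPolynomial σ ℤ) (MvPolynomial σ ℤ)) (P : MvPolynomial σ ℤ) :
    aeval (fun s => du (v s) (w * aeval v (Δ (X s)))) P = du (aeval v P) (w * aeval v (Δ P)) := by
  induction P using MvPolynomial.induction_on with
  | C n =>
    have h1 : Δ (C n) = 0 := by
      rw [← algebraMap_eq]; exact Δ.map_algebraMap n
    rw [h1, map_zero, mul_zero, ← algebraMap_eq, AlgHom.commutes, AlgHom.commutes]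
    simp only [eq_intCast]
    exact (du_int n).symm
  | add p q hp hq =>
    rw [map_add, hp, hq, map_add, map_add, map_add, du_add, mul_add]
  | mul_X p s hp =>
    rw [map_mul, hp, aeval_X, map_mul, aeval_X, Derivation.leibniz, map_add, smul_eq_mul,
      smul_eq_mul, map_mul, map_mul, aeval_X, du_mul]
    congr 1
    ring

theorem der_sum {σ ι : Type*} (s : Finset ι)
    (D : ι → Derivation ℤ (MvPolynomial σ ℤ) (MvPolynomial σ ℤ)) (p : MvPolynomial σ ℤ) :
    (∑ i ∈ s, D i) p = ∑ i ∈ s, D i p := by
  classical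
  induction s using Finset.induction_on with
  | empty => simp
  | insert a s ha ih => rw [Finset.sum_insert ha, Finset.sum_insert ha, Derivation.add_apply, ih]

section act

variable {N : ℕ} {R : Type*} [CommRing R]

/-- The coefficients moved infinitesimally. -/
def a' (c c' : Fin 3) (a : Fin N → Fin 3 → R) : Fin N → Fin 3 → DualNumber R := fun i d =>
  du (a i d) (if d = c' then -a i c else 0)

/-- The jets moved infinitesimally. -/
def x' (c c' : Fin 3) (X : Fin 3 → Fin 3 → R) : Fin 3 → Fin 3 → DualNumber R := fun r d =>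
  du (X r d) (if d = c then X r c' else 0)

theorem tE_inl (c c' : Fin 3) (i : Fin N) (d : Fin 3) :
    tE c c' (X (Sum.inl (i, d)) : Pol N) = if d = c' then -X (Sum.inl (i, c)) else 0 := by
  have h1 : xE c c' (X (Sum.inl (i, d)) : Pol N) = 0 := by
    simp only [xE, dX, der_sum, Derivation.smul_apply]
    refine Finset.sum_eq_zero fun r _ => ?_
    rw [pderiv_X_of_ne (by simp), smul_zero]
  have h2 : aE c c' (X (Sum.inl (i, d)) : Pol N) = if d = c' then X (Sum.inl (i, c)) else 0 := by
    simp only [aE, dA, der_sum, Derivation.smul_apply]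
    rw [Finset.sum_eq_single i]
    · by_cases hd : d = c'
      · subst hd
        rw [pderiv_X_self, if_pos rfl, smul_eq_mul, mul_one]
      · rw [pderiv_X_of_ne (by simpa using hd), if_neg hd, smul_zero]
    · intro j _ hj
      rw [pderiv_X_of_ne (by
        intro h
        simp only [Sum.inl.injEq, Prod.mk.injEq] at h
        exact hj h.1.symm), smul_zero]
    · simp
  rw [tE, Derivation.sub_apply, h1, h2, zero_sub]
  split_ifs <;> simp

theorem tE_inr (c c' : Fin 3) (r : Fin 3) (d : Fin 3) :
    tE c c' (X (Sum.inr (r, d)) : Pol N) = if d = c then X (Sum.inr (r, c')) else 0 := by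
  have h1 : aE c c' (X (Sum.inr (r, d)) : Pol N) = 0 := by
    simp only [aE, dA, der_sum, Derivation.smul_apply]
    refine Finset.sum_eq_zero fun r _ => ?_
    rw [pderiv_X_of_ne (by simp), smul_zero]
  have h2 : xE c c' (X (Sum.inr (r, d)) : Pol N) = if d = c then X (Sum.inr (r, c')) else 0 := by
    simp only [xE, dX, der_sum, Derivation.smul_apply]
    rw [Finset.sum_eq_single r]
    · by_cases hd : d = c
      · subst hd
        rw [pderiv_X_self, if_pos rfl, smul_eq_mul, mul_one]
      · rw [pderiv_X_of_ne (by simpa using hd), if_neg hd, smul_zero]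
    · intro j _ hj
      rw [pderiv_X_of_ne (by
        intro h
        simp only [Sum.inr.injEq, Prod.mk.injEq] at h
        exact hj h.1.symm), smul_zero]
    · simp
  rw [tE, Derivation.sub_apply, h1, h2, sub_zero]

theorem evP_act (c c' : Fin 3) (a : Fin N → Fin 3 → R) (Y : Fin 3 → Fin 3 → R) (P : Pol N) :
    evP (a' c c' a) (x' c c' Y) P = du (evP a Y P) (evP a Y (tE c c' P)) := by
  have h1 := taylor (vals a Y) 1 (tE c c') P
  rw [one_mul] at h1
  rw [evP, evP, ← h1]
  congr 2
  funext s
  rcases s with ⟨i, d⟩ | ⟨r, d⟩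
  · rw [tE_inl, one_mul]
    simp only [vals, Sum.elim_inl, a']
    split_ifs <;> simp
  · rw [tE_inr, one_mul]
    simp only [vals, Sum.elim_inr, x']
    split_ifs <;> simp

theorem lf_act (c c' : Fin 3) (a : Fin N → Fin 3 → R) (Y : Fin 3 → Fin 3 → R) (i : Fin N)
    (r : Fin 3) : lf (a' c c' a i) (x' c c' Y r) = du (lf (a i) (Y r)) 0 := by
  have h1 : ∀ d, a' c c' a i d * x' c c' Y r d = du (a i d * Y r d)
      ((if d = c then a i d * Y r c' else 0) - (if d = c' then a i c * Y r d else 0)) := by
    intro d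
    simp only [a', x']
    rw [du_mul]
    congr 1
    split_ifs <;> ring
  rw [lf, Finset.sum_congr rfl fun d _ => h1 d, du_sum, Finset.sum_sub_distrib]
  congr 1
  simp

theorem chg_act (c c' : Fin 3) (Y : Fin 3 → Fin 3 → R) (lam f s t w : R) :
    chg (du lam 0) (du f 0) (du s 0) (du t 0) (du w 0) (x' c c' Y) =
      x' c c' (chg lam f s t w Y) := by
  funext r d
  fin_cases r
  · show du lam 0 * x' c c' Y 0 d = du (lam * Y 0 d) (if d = c then lam * Y 0 c' else 0)
    rw [x', du_mul]
    congr 1
    split_ifs <;> ring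
  · show du lam 0 * du f 0 * x' c c' Y 1 d + du s 0 * x' c c' Y 0 d =
      du (lam * f * Y 1 d + s * Y 0 d) (if d = c then lam * f * Y 1 c' + s * Y 0 c' else 0)
    simp only [x', du_mul, du_add]
    congr 1
    split_ifs <;> ring
  · show du lam 0 * du f 0 ^ 2 * x' c c' Y 2 d + du t 0 * x' c c' Y 1 d + du w 0 * x' c c' Y 0 d =
      du (lam * f ^ 2 * Y 2 d + t * Y 1 d + w * Y 0 d)
        (if d = c then lam * f ^ 2 * Y 2 c' + t * Y 1 c' + w * Y 0 c' else 0)
    simp only [x', du_pow, du_mul, du_add]
    congr 1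
    split_ifs <;> ring

theorem snd_du_pow (x y : R) (n : ℕ) : (du x y ^ n).snd * x = n * y * x ^ n := by
  induction n with
  | zero => rw [pow_zero]; simp [TrivSqZeroExt.snd_one]
  | succ n ih =>
    have h1 : (du x y ^ n).fst = x ^ n := by rw [TrivSqZeroExt.fst_pow, fst_du]
    rw [pow_succ, du_eq (z := du x y ^ n), du_mul, snd_du, h1]
    push_cast
    linear_combination x * ih

/-- The common step of the node conditions. -/
theorem dvd_step {u P Q : R} {ν M : ℕ} {d : DualNumber R}
    (h : du (u ^ ν) 0 ∣ d ^ M * du P Q) : u ^ ν ∣ d.fst ^ (M + 1) * Q := by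
  obtain ⟨z, hz⟩ := h
  have h3 := snd_du_pow d.fst d.snd M
  rw [← du_eq] at h3
  rw [du_eq (z := z), du_eq (z := d ^ M), du_mul, du_mul, TrivSqZeroExt.fst_pow] at hz
  have h1 : d.fst ^ M * P = u ^ ν * z.fst := congrArg Prod.fst hz
  have h2 : d.fst ^ M * Q + (d ^ M).snd * P = u ^ ν * z.snd + 0 * z.fst := congrArg Prod.snd hz
  refine ⟨z.snd * d.fst - M * d.snd * z.fst, ?_⟩
  linear_combination d.fst * h2 - P * h3 - M * d.snd * h1

end act

theorem det3_fst {R : Type*} [CommRing R] (x y z : Fin 3 → DualNumber R) :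
    (det3 x y z).fst = det3 (fun c => (x c).fst) (fun c => (y c).fst) (fun c => (z c).fst) := by
  simp [det3, Matrix.det_fin_three]

/-- CLT. -/
theorem clt : CltStmt.{u} := by
  intro N ν e m c c' P hP
  refine ⟨fun R _ a Y lam f s t w => ?_, fun i j l hij hli hlj => ?_⟩
  · have h1 := hP.inv (DualNumber R) (a' c c' a) (x' c c' Y) (du lam 0) (du f 0) (du s 0) (du t 0)
      (du w 0)
    rw [chg_act, evP_act, evP_act, du_pow, du_pow, du_mul, du_mul] at h1
    have h2 := congrArg Prod.snd h1
    refine h2.trans ?_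
    show lam ^ e * f ^ m * evP a Y (tE c c' P) + (lam ^ e * 0 + 0 * f ^ m) * evP a Y P = _
    ring
  · obtain ⟨M, hM⟩ := hP.nod i j l hij hli hlj
    refine ⟨M + 1, fun R _ a Y η₀ η₁ η₂ h0 h1 h2 => ?_⟩
    have h3 := hM (DualNumber R) (a' c c' a) (x' c c' Y) (du η₀ 0) (du η₁ 0) (du η₂ 0)
      (by rw [lf_act, lf_act, h0, du_mul]; congr 1; ring)
      (by
        rw [lf_act, lf_act, lf_act, h1, du_mul, du_mul, du_add]
        congr 1; ring)
      (by
        have h4 : (2 : DualNumber R) = du 2 0 := rfl
        rw [lf_act, lf_act, lf_act, lf_act, h2, h4]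
        simp only [du_mul, du_add]
        congr 1; ring)
    rw [evP_act, lf_act, du_pow] at h3
    have h4 := dvd_step h3
    rw [det3_fst] at h4
    exact h4

end Pool.Agent.DP.H11
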